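import Pool.Agent.MP_ee8c61_ag.R3.Defs
import Pool.Agent.MP_ee8c61_ag.N3BK.Spec
import Pool.Agent.MP_ee8c61_ag.Q3FT.Spec2

/-! The ruled divisor over a double curve of exponent zero, over a base: the statements. -/

namespace Pool.Agent.MP_ee8c61_ag.N3.Q3FT

open Pool.Agent.MP_ee8c61_ag.M3 Pool.Agent.MP_ee8c61_ag.Q3FT

set_option linter.unusedSectionVars false

variable [Base]

open H59 hiding pd
open M3RESID M3F Q3 Polynomial
open M3BK (Nrm)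

noncomputable section

/-- The divisor `i` of `W` has the double curve `V` of `o` and `j` as its centre. -/
structure Zf {W M : Mod 3} (D : Dom W M) (la : ℚ) (o j : M.J) (i : W.J) (V : Vl 3) : Prop where
  cv : W.IsCv (D.e o) i V
  ex : W.ex la i = 0
  mo : 0 < D.m i o
  mj : D.m i j = 1
  ml : ∀ l, l ≠ o → l ≠ j → D.m i l = 0

def SZF : Prop := ∀ (f : Po 3) (la : ℚ) (M : Mod 3) (o j : M.J) (V : Vl 3), M.OK f →
  M.ex la o = 0 → M.ex la j = 0 → M.IsCv o j V →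
  ∃ (W : Mod 3) (D : Dom W M) (i : W.J), W.OK f ∧ Zf D la o j i V

/-- The divisor is ruled over the curve. -/
def SFT : Prop := ∀ (f : Po 3) (la : ℚ) (W M : Mod 3) (D : Dom W M) (o j : M.J) (i : W.J)
  (G : DV (M.v o).kf) (e : Dv (M.v o).kf) (e' : Dv G.kf) (L : Type) [Field L] [Algebra ℂ L]
  (P : Pl (KK 3) L) (d : Dv L), W.OK f → M.OK f → M.ex la o = 0 → M.ex la j = 0 → Nrm G →
  M.IsCv o j (lift (M.v o).pl G) → Zf D la o j i (lift (M.v o).pl G) →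
  (M.v o).pl.RsD (dvf f la) e → G.pl.RsD e e' → P.o = W.v i → P.RsD (dvf f la) d →
  ∃ (ι : G.kf →ₐ[ℂ] L) (y : L), Rl ι y e' d ∧ ∀ b, M.In b (lift (M.v o).pl G) →
    ∀ g, Lc (M.S.A b) (lift (M.v o).pl G) g → P.π g = ι (G.pl.π ((M.v o).pl.π g))

/-- At time zero the sections come from the divisor of the exponents. -/
def SDS : Prop := ∀ (f : Po 3) (la : ℚ) (M : Mod 3) (C : Ch f M) (o : M.J) (Y : C.AS o),
  M.OK f → M.ex la o = 0 → Y.OK la → C.t = 0 →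
  ∃ c : M.J → ℤ, (∀ j, (c j : ℚ) ≤ Y.m * M.ex la j) ∧ ∀ g ∈ Y.T0, g ∈ M.H c

/-- Away from double roots every double curve of exponent zero has a place of negative
exponent. -/
def H2 (f : Po 3) (b : ℂ[X]) (M : Mod 3) : Prop := ∀ (la : ℚ) (o j : M.J) (G : DV (M.v o).kf)
  (e : Dv (M.v o).kf) (e' : Dv G.kf), ¬(X + C (la : ℂ)) ^ 2 ∣ b → M.ex la o = 0 →
  M.ex la j = 0 → Nrm G → M.IsCv o j (lift (M.v o).pl G) → (M.v o).pl.RsD (dvf f la) e →
  G.pl.RsD e e' → ∃ (U : DV G.kf) (a : ℚ), Nrm U ∧ Exp e' U a ∧ a < 0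

/-- At a simple root the double curves of exponent zero are complete over the base. -/
def SNC : Prop := ∀ (f : Po 3) (la : ℚ) (b : ℂ[X]) (β : Fin 3 → PX 3 (KK 3)) (Q : PX 3 (KK 3))
  (M : Mod 3) (o j : M.J) (G : DV (M.v o).kf), Hyp0 f b β Q → M.OK f →
  b.eval (-(la : ℂ)) = 0 → ¬(X + C (la : ℂ)) ^ 2 ∣ b → M.ex la o = 0 → M.ex la j = 0 → Nrm G →
  M.IsCv o j (lift (M.v o).pl G) →
  ∀ l, G.pl.π ((M.v o).pl.π (xx 3 l)) ∈ Set.range (algebraMap ℂ G.kf)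

/-- The type of the double curves at a simple root. -/
def T2W (f : Po 3) (b : ℂ[X]) (M : Mod 3) : Prop := ∀ (la : ℚ) (o j : M.J) (e : Dv (M.v o).kf)
  (G : DV (M.v o).kf), b.eval (-(la : ℂ)) = 0 → ¬(X + C (la : ℂ)) ^ 2 ∣ b → M.ex la o = 0 →
  M.ex la j = 0 → (M.v o).pl.RsD (dvf f la) e → Nrm G → M.IsCv o j (lift (M.v o).pl G) →
  TY0 e (BK.xb (M.v o).pl) G

end

end Pool.Agent.MP_ee8c61_ag.N3.Q3FT
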