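import Pool.Agent.MP_ee8c61_ag.Q3BK.Ty
import Pool.Agent.MP_ee8c61_ag.R3.Defs
import Pool.Agent.MP_ee8c61_ag.N3BK.Spec
import Pool.Agent.MP_ee8c61_ag.N3Z.IZ
import Pool.Agent.MP_ee8c61_ag.N3E.Final
import Pool.Agent.MP_ee8c61_ag.N3RESID.U3

/-! The volume form on a double curve of exponent zero. -/

namespace Pool.Agent.MP_ee8c61_ag.N3.Q3BK

open Pool.Agent.MP_ee8c61_ag.M3 Pool.Agent.MP_ee8c61_ag.Q3BK

set_option linter.unusedSectionVars false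

variable [Base]

open M3 M3RESID M3BK M3F WithZero Pool.Agent.MP_cce4c9_lc.H87
open scoped IntermediateField

noncomputable section

variable {f : Po 3} {M : N3.Mod 3} {la : ℚ} {o j : M.J} {G : DV (M.v o).kf} {e : Dv (M.v o).kf}

open M3E in
/-- A double curve is a flag. -/
theorem flag (hM : M.OK f) (hG : Nrm G) (hV : M.IsCv o j (lift (M.v o).pl G)) :
    M3Z.Fl f M (M.v o).pl G.pl o j :=
  ⟨hM, eout.bas _ f _ hM, eout.der _ f _ hM, eout.cv _ f _ hM, rowUnr, rfl, hG, hV⟩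

/-- The data on a double curve of exponent zero. -/
structure CvD (e : Dv (M.v o).kf) (G : DV (M.v o).kf) (e' : Dv G.kf) : Prop where
  zero : Exp e G 0
  ff : IsFF ℂ G.kf
  atc : ∃ C : Co (M.v o).kf 2, C.At G 0
  rs : ∀ w, ∃ v, G.pl.Rs v w
  rd : G.pl.RsD e e'
  rat : Rat1 e'
  exp : ∀ U, Nrm U → ∃ a : ℚ, Exp e' U a

theorem cvd (hM : M.OK f) (ho : M.ex la o = 0) (hj : M.ex la j = 0)
    (he : (M.v o).pl.RsD (dvf f la) e) (hG : Nrm G) (hV : M.IsCv o j (lift (M.v o).pl G)) :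
    ∃ e', CvD e G e' := by
  have hF := flag hM hG hV
  obtain ⟨b, hb⟩ := hM.cov _ hF.isc.2.1
  obtain ⟨l0, l1, l2, hl⟩ := hF.labels hb
  obtain ⟨C, hC, hA⟩ := hF.exists_co2 hb hl 0
  have hk := hF.isFF hb hl
  obtain ⟨p, hp⟩ := hG
  have hE : Exp e G 0 := by simpa [hj] using exp_isCv hM rfl ho he hp hV
  obtain ⟨e', he'⟩ := Pl.exists_RsD (P := G.pl) hE hp (rs_all hk hA)
  obtain ⟨C₀, ψ, e₀, h1, h2, h3⟩ := exists_rat (P := (M.v o).pl) hM ho rfl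
  obtain rfl : e₀ = e := h2.uniq he (hC.lift (hF.at3 hb hl 0))
  have hr := rat1 (G := G.pl) hA hE la.pos h1 h3 he'
  exact ⟨e', hE, hk, ⟨C, hA⟩, rs_all hk hA, he', hr, fun U hU => exists_exp hk hr hU⟩

theorem CvD.ty0 {e' : Dv G.kf} (h : CvD e G e') (h1 : Ty1 e')
    (hx : ∀ l, G.pl.π ((M.v o).pl.π (xx 3 l)) ∈ Set.range (algebraMap ℂ G.kf)) :
    Q3.TY0 e (BK.xb (M.v o).pl) G := by
  obtain ⟨σ, θ, μ, h2, h3, h4⟩ := h1
  exact ⟨σ, θ, μ, h2, h3, fun e'' he => h.rd.uniq he h.rs ▸ h4, by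
    rintro _ ⟨l, rfl⟩
    exact hx l⟩

end

end Pool.Agent.MP_ee8c61_ag.N3.Q3BK
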