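import Pool.Agent.MP_ee8c61_ag.R3FT.Spec
import Pool.Agent.MP_ee8c61_ag.N3E.Final
import Pool.Agent.MP_ee8c61_ag.N3K.Asm
import Pool.Agent.MP_ee8c61_ag.N3.FKit2
import Pool.Agent.MP_ee8c61_ag.N3RESID.U3
import Pool.Agent.MP_ee8c61_ag.N3L.R1

/-! Curves away from the divisors of negative exponent; triple points. -/

namespace Pool.Agent.MP_ee8c61_ag.N3.Q3FT

open Pool.Agent.MP_ee8c61_ag.M3 Pool.Agent.MP_ee8c61_ag.Q3FT

set_option linter.unusedSectionVars false

variable [Base]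

open M3 M3RESID M3F M3E Q3 Finset
open M3BK (Nrm)
open M3K (Tc)

noncomputable section

namespace RNn

variable {N : ℕ} {f : Po N} {W M : Mod N} {la : ℚ}

theorem ex_pb (D : Dom W M) (hW : W.OK f) (hM : M.OK f) (i : W.J) :
    W.ex la i = W.nu i - D.pb M.nu i + ∑ j, (D.m i j : ℚ) * M.ex la j := by
  have h := congrFun (eout.dc N f W M D hW hM).aa i
  have h2 : (W.a i : ℚ) = ∑ j, (D.m i j : ℚ) * M.a j := by
    simp only [Dom.pb, Mod.aa] at h
    exact_mod_cast h.symm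
  have h3 : ∑ j, (D.m i j : ℚ) * M.ex la j =
      D.pb M.nu i - la * ∑ j, (D.m i j : ℚ) * M.a j := by
    rw [Dom.pb, mul_sum, ← sum_sub_distrib]
    exact sum_congr rfl fun j _ => by simp only [Mod.ex, Mod.nu]; ring
  rw [h3, ← h2]
  simp only [Mod.ex, Mod.nu]
  ring

theorem m_e (D : Dom W M) (hW : W.OK f) (hM : M.OK f) (i j : M.J) :
    D.m (D.e i) j = if i = j then 1 else 0 := by
  have h := (eout.dc N f W M D hW hM).pb_e ℤ (M.e j) i
  rw [D.pb_e, Mod.e_apply] at h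
  split_ifs at h ⊢ <;> exact_mod_cast h

theorem ex_e (D : Dom W M) (hW : W.OK f) (hM : M.OK f) (j : M.J) :
    W.ex la (D.e j) = M.ex la j := by
  have h := congrFun (eout.dc N f W M D hW hM).aa (D.e j)
  rw [(eout.dc N f W M D hW hM).pb_e] at h
  have h2 : W.a (D.e j) = M.a j := by
    simp only [Mod.aa] at h
    exact_mod_cast h.symm
  simp only [Mod.ex, (eout.jd N f W M D hW hM).2, h2]

end RNn

end

end Pool.Agent.MP_ee8c61_ag.N3.Q3FT
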