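import Pool.Agent.MP_ee8c61_ag.R3FT.RZf
import Pool.Agent.MP_ee8c61_ag.R3FT.RFt
import Pool.Agent.MP_ee8c61_ag.R3FT.RDs
import Pool.Agent.MP_ee8c61_ag.Q3FT.RRs
import Pool.Agent.MP_ee8c61_ag.Q3FT.RGs
import Pool.Agent.MP_ee8c61_ag.Q3FT.REx
import Pool.Agent.MP_ee8c61_ag.Q3FD.Br
import Pool.Agent.MP_ee8c61_ag.R3FT.RNn

/-! The type of a double curve at a simple root. -/

namespace Pool.Agent.MP_ee8c61_ag.N3.Q3FT

open Pool.Agent.MP_ee8c61_ag.M3 Pool.Agent.MP_ee8c61_ag.Q3FT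

set_option linter.unusedSectionVars false

variable [Base]

open M3 M3RESID M3F M3E Q3 Polynomial

namespace RT2B

theorem der_ne {b : ℂ[X]} {c : ℂ} (h0 : b.eval (-c) = 0) (h : ¬(X + C c) ^ 2 ∣ b) :
    b.derivative.eval (-c) ≠ 0 := fun h1 => by
  have e : ∀ p : ℂ[X], p.eval (-c) = 0 → X + C c ∣ p := fun p hp => by
    simpa using dvd_iff_isRoot.2 hp
  obtain ⟨q, rfl⟩ := e b h0
  obtain ⟨r, rfl⟩ := e q (by simpa using h1)
  exact h ⟨r, by ring⟩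

/-- A section without poles along the divisors through `V` is regular at the centre of `V`. -/
theorem lc_of {N : ℕ} {f : Po N} {M : Mod N} (hM : M.OK f) {c : M.J → ℤ} {g : KK N}
    (hg : g ∈ M.H c) {V : Vl N} {a : M.ι} (ha : M.In a V) (hc : ∀ j, M.Thru V j → c j ≤ 0) :
    Lc (M.S.A a) V g := by
  have B := eout.bas N f M hM
  refine (eout.nb N f M hM).lc a V g ha fun V' h1 h2 => ?_
  have h3 := B.oc_mono V' c 0 g (fun j hj => hc j ((B.thru_iff a V j ha).2 fun x =>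
    (B.thru_iff a V' j h1).1 hj (h2 _ (B.η_mem a j) x))) (hg V' (B.ov a V' h1)) a h1
  rwa [B.mon_zero, mul_one] at h3

end RT2B

open RT2B RNn in
theorem t2w (P : POut) (iz : SIZ) (nc : SNC) {f : Po 3} {b : ℂ[X]}
    {β : Fin 3 → H59.PX 3 (KK 3)} {Q : H59.PX 3 (KK 3)} {M : Mod 3} (H : Hyp0 f b β Q)
    (hM : M.OK f) (ng : H2 f b M) : T2W f b M := by
  intro la o j e G hr hn ho hj he hG hV
  have dd := Q3FD.de rRS rGS rEX
  have la' := Q3FD.la rRS rOP rGS rEX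
  have zf := rZF
  have ft := rFT
  have ds := rDS
  have hf := H.ne
  obtain ⟨e', hd⟩ := Q3BK.cvd hM ho hj he hG hV
  have he' := hd.rd
  have h1 := ng la o j G e e' hn ho hj hG hV he he'
  have h2 := nc f la b β Q M o j G H hM hr hn ho hj hG hV
  refine hd.ty0 ?_ h2
  obtain ⟨W, D, i, hW, hZ⟩ := zf f la M o j _ hM ho hj hV
  obtain ⟨M₁, D₁, hM₁, hz⟩ := iz f la b β Q W H hW hr (der_ne hr hn)
  have e0 : M₁.ex la (D₁.e i) = 0 := (ex_e D₁ hM₁ hW i).trans hZ.ex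
  obtain ⟨C, hA, hC⟩ := P.ch f M₁ hf hM₁ (D₁.e i)
  obtain ⟨X, hX⟩ := P.av f la b β Q M₁ _ H hM₁ e0
  obtain ⟨Y, hY⟩ := P.as f la M₁ C _ hM₁ e0
  have S : Sit0 f la b β Q M₁ C (D₁.e i) := ⟨H, hM₁, e0, hA⟩
  have ok := P.ok _ _ _ _ _ _ _ _ _ _ S hX hY
  obtain ⟨ι, y, R, hι⟩ := ft f la W M D o j i G e e' _ (M₁.v (D₁.e i)).pl X.d hW hM ho hj hG hV hZ
    he he' (D₁.v i) hX.rd
  obtain ⟨a, ha⟩ := hM.cov _ hV.2.1
  have hx : ∀ l, ∃ c : ℂ, (C.sd la b _ X Y).x l = algebraMap ℂ _ c := fun l => by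
    obtain ⟨c, hc⟩ := h2 l
    exact ⟨c, (hι a ha _ (Lc.of_mem (hM.xx_mem a l))).trans (by rw [← ι.commutes, hc])⟩
  rcases hC with hC | hC
  · exact dd _ _ ι y e' (C.sd la b _ X Y) R ok hC.1 (P.small _ _ _ _ _ _ _ _ _ _ S hX hY hC.2.2)
      (P.pen _ _ _ _ _ _ _ _ _ _ S hX hY hC) hx h1
  refine la' _ _ ι y e' (C.sd la b _ X Y) R ok hC hx (fun s hs => ?_) h1
    (hz C _ X Y S hX hY hC)
  obtain ⟨c, c1, c2⟩ := ds f la M₁ C _ Y hM₁ e0 hY hC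
  classical
  obtain ⟨g, hg, rfl⟩ := Finset.mem_image.1 hs
  have h3 := (eout.dc 3 f W M D hW hM).push _ ((eout.dc 3 f M₁ W D₁ hM₁ hW).push _ (c2 g hg))
  refine ⟨_, (hι a ha g (lc_of hM h3 ha fun l hl => ?_)).symm⟩
  have h4 := c1 (D₁.e (D.e l))
  rw [ex_e D₁ hM₁ hW, ex_e D hW hM] at h4
  rcases (eout.cv 3 f M hM).thru o j _ l hV hl with rfl | rfl
  · rw [ho, mul_zero] at h4
    exact_mod_cast h4
  · rw [hj, mul_zero] at h4
    exact_mod_cast h4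

end Pool.Agent.MP_ee8c61_ag.N3.Q3FT
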